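import Pool.Agent.H4.SE.Targets

/-!
# Module RI of the board sae_modules: tails and heads
-/

set_option autoImplicit false

open Finset Equiv
open scoped Classical

namespace Pool.Agent.H85.SE4RI

open Pool.Agent.H4.SE
open Pool.Agent.H11.SAE (lp)

variable {r d : ℕ} (T : Fin d → List (Fin r × Bool))

theorem ent_equiv (hEP : T_EP) {Ω Ω' α : Type} [Fintype Ω] [Fintype Ω'] (e : Ω' ≃ Ω) (f : Ω → α) :
    ent (fun y => f (e y)) = ent f := by
  refine hEP Ω Ω' α e 1 one_pos (fun x => ?_) f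
  have : (univ.filter fun y => e y = x) = {e.symm x} := by
    ext y
    simp only [mem_filter, mem_univ, true_and, mem_singleton]
    exact ⟨fun h => by rw [← h, symm_apply_apply], fun h => by rw [h, apply_symm_apply]⟩
  rw [this, card_singleton]

theorem key {β : Type} {σ σ' : Fin r → Perm β} {j : Fin d} (hW : W T σ j = W T σ' j) {m : ℕ}
    (ν ν' : β) : pos T σ ν (vt T (j, m)) = pos T σ' ν' (vt T (j, m)) ↔
      (pp σ (T j) m)⁻¹ ν = (pp σ' (T j) m)⁻¹ ν' := by
  by_cases h0 : m = 0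
  · subst h0
    unfold vt
    rw [if_pos (Or.inl rfl)]
    rfl
  · by_cases h1 : m = (T j).length
    · have hv : vt T (j, m) = none := by
        unfold vt
        rw [if_pos (Or.inr h1)]
      rw [hv, h1]
      have h2 : pp σ (T j) (T j).length = pp σ' (T j) (T j).length := hW
      rw [h2]
      exact ⟨fun h => congrArg _ h, fun h => (pp σ' (T j) (T j).length)⁻¹.injective h⟩
    · have hv : vt T (j, m) = some (j, m) := by
        unfold vt
        rw [if_neg (by simp only [not_or]; exact ⟨h0, h1⟩)]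
      rw [hv]
      rfl

theorem tl_eq (e : Fin d × ℕ) : tl T e = vt T (e.1, rt T e) := by
  unfold tl rt
  split_ifs <;> rfl

theorem hd_eq (e : Fin d × ℕ) : hd T e = vt T (e.1, rh T e) := by
  unfold hd rh
  split_ifs <;> rfl

/-- the position at an end of an edge determines the raw position and conversely -/
theorem ent_raw (hEM : T_EM) (k : ℕ) (β : Type) [Fintype β] [DecidableEq β]
    (B : Finset (Fin d × ℕ)) (u : Fin d × ℕ → Option (Fin d × ℕ)) (m : Fin d × ℕ → ℕ)
    (hu : ∀ e, u e = vt T (e.1, m e)) :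
    ent (fun x : Om r k β × β => (WQ T x.1, fun a : (B.image u) => pos T x.1.1 x.2 a.1)) =
    ent (fun x : Om r k β × β =>
      (WQ T x.1, fun e : B => (pp x.1.1 (T e.1.1) (m e.1))⁻¹ x.2)) := by
  have hk : ∀ x y : Om r k β × β, WQ T x.1 = WQ T y.1 → ∀ e : Fin d × ℕ,
      (pos T x.1.1 x.2 (u e) = pos T y.1.1 y.2 (u e) ↔
        (pp x.1.1 (T e.1) (m e))⁻¹ x.2 = (pp y.1.1 (T e.1) (m e))⁻¹ y.2) := by
    intro x y h e
    rw [hu e]
    exact key T (congrFun (Prod.mk.inj h).1 e.1) x.2 y.2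
  refine le_antisymm ?_ ?_
  · refine hEM _ _ _ _ _ fun x y h => ?_
    obtain ⟨h1, h2⟩ := Prod.mk.inj h
    refine Prod.ext h1 ?_
    funext a
    obtain ⟨e, he, hea⟩ := mem_image.1 a.2
    simp only
    rw [← hea]
    exact (hk x y h1 e).2 (congrFun h2 ⟨e, he⟩)
  · refine hEM _ _ _ _ _ fun x y h => ?_
    obtain ⟨h1, h2⟩ := Prod.mk.inj h
    refine Prod.ext h1 ?_
    funext e
    exact (hk x y h1 e.1).1 (congrFun h2 ⟨u e.1, mem_image_of_mem u e.2⟩)

/-- one letter -/
theorem step {β : Type} (σ : Fin r → Perm β) {i : Fin r} {e : Fin d × ℕ} (he : e ∈ Ei T i)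
    (ν : β) : (pp σ (T e.1) (rh T e))⁻¹ (σ i ν) = (pp σ (T e.1) (rt T e))⁻¹ ν := by
  unfold Ei at he
  rw [mem_filter] at he
  have hl := he.2
  unfold lb at hl
  rw [Option.map_eq_some_iff] at hl
  obtain ⟨x, hx, hxi⟩ := hl
  obtain ⟨i', s⟩ := x
  simp only at hxi
  subst hxi
  have hsg : sg T e = s := by
    unfold sg
    rw [hx]
    rfl
  have hpp : pp σ (T e.1) (e.2 + 1) = lp σ (i', s) * pp σ (T e.1) e.2 := by
    simp only [pp, hx]
  unfold rh rt
  rw [hsg]
  cases s
  · have hlp : lp σ (i', false) = (σ i')⁻¹ := rfl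
    rw [if_neg (by decide), if_neg (by decide), hpp, hlp, mul_inv_rev, inv_inv]
    rfl
  · have hlp : lp σ (i', true) = σ i' := rfl
    rw [if_pos rfl, if_pos rfl, hpp, hlp, mul_inv_rev]
    exact congrArg (fun z => (pp σ (T e.1) e.2)⁻¹ z) ((σ i').symm_apply_apply ν)

theorem pf_RI (hEM : T_EM) (hEP : T_EP) : T_RI := by
  intro r d T k β _ _ _ i B hB
  unfold rho
  rw [ent_raw T hEM k β B (tl T) (rt T) (tl_eq T), ent_raw T hEM k β B (hd T) (rh T) (hd_eq T)]
  let e : Om r k β × β ≃ Om r k β × β :=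
    { toFun := fun x => (x.1, x.1.1 i x.2)
      invFun := fun x => (x.1, (x.1.1 i).symm x.2)
      left_inv := fun x => Prod.ext rfl ((x.1.1 i).symm_apply_apply x.2)
      right_inv := fun x => Prod.ext rfl ((x.1.1 i).apply_symm_apply x.2) }
  rw [← ent_equiv hEP e (fun x : Om r k β × β =>
      (WQ T x.1, fun e : B => (pp x.1.1 (T e.1.1) (rh T e.1))⁻¹ x.2))]
  congr 2
  funext x
  refine Prod.ext rfl ?_
  funext b
  exact (step T x.1.1 (hB b.2) x.2).symm

end Pool.Agent.H85.SE4RI
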