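import Pool.Agent.H4.SE.Targets

/-!
# Module RS of the board sae_modules: one vertex
-/

set_option autoImplicit false

open Finset Equiv
open scoped Classical

namespace Pool.Agent.H85.SE4RS

open Pool.Agent.H4.SE

variable {r d : ℕ} (T : Fin d → List (Fin r × Bool))

/-- the position as a permutation -/
noncomputable def pm {β : Type} (σ : Fin r → Perm β) (a : Option (Fin d × ℕ)) : Perm β :=
  match a with
  | none => 1
  | some e => (pp σ (T e.1) e.2)⁻¹

theorem pos_eq {β : Type} (σ : Fin r → Perm β) (v : β) (a : Option (Fin d × ℕ)) :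
    pos T σ v a = pm T σ a v := by
  cases a <;> rfl

theorem ent_equiv (hEP : T_EP) {Ω Ω' α : Type} [Fintype Ω] [Fintype Ω'] (e : Ω' ≃ Ω) (f : Ω → α) :
    ent (fun y => f (e y)) = ent f := by
  refine hEP Ω Ω' α e 1 one_pos (fun x => ?_) f
  have : (univ.filter fun y => e y = x) = {e.symm x} := by
    ext y
    simp only [mem_filter, mem_univ, true_and, mem_singleton]
    exact ⟨fun h => by rw [← h, symm_apply_apply], fun h => by rw [h, apply_symm_apply]⟩
  rw [this, card_singleton]

theorem pf_RS (hEM : T_EM) (hEP : T_EP) (hEI : T_EI) : T_RS := by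
  intro r d T k β _ _ _ a
  have h1 : ent (fun x : Om r k β × β => (WQ T x.1, fun a' : ({a} : Finset (Option (Fin d × ℕ))) =>
      pos T x.1.1 x.2 a'.1)) = ent (fun x : Om r k β × β => (WQ T x.1, pos T x.1.1 x.2 a)) := by
    refine le_antisymm ?_ ?_
    · refine hEM _ _ _ _ _ fun x y h => ?_
      obtain ⟨h2, h3⟩ := Prod.mk.inj h
      refine Prod.ext h2 ?_
      funext a'
      have : a'.1 = a := mem_singleton.1 a'.2
      simp only [this]
      exact h3
    · refine hEM _ _ _ _ _ fun x y h => ?_
      obtain ⟨h2, h3⟩ := Prod.mk.inj h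
      exact Prod.ext h2 (congrFun h3 ⟨a, mem_singleton_self a⟩)
  let e : Om r k β × β ≃ Om r k β × β :=
    { toFun := fun x => (x.1, pm T x.1.1 a x.2)
      invFun := fun x => (x.1, (pm T x.1.1 a).symm x.2)
      left_inv := fun x => Prod.ext rfl ((pm T x.1.1 a).symm_apply_apply x.2)
      right_inv := fun x => Prod.ext rfl ((pm T x.1.1 a).apply_symm_apply x.2) }
  have h2 : ent (fun x : Om r k β × β => (WQ T x.1, pos T x.1.1 x.2 a)) =
      ent (fun x : Om r k β × β => (WQ T x.1, x.2)) := by
    rw [← ent_equiv hEP e (fun x : Om r k β × β => (WQ T x.1, x.2))]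
    congr 1
    funext x
    exact Prod.ext rfl (pos_eq T x.1.1 x.2 a)
  haveI : Nonempty (Om r k β) := ⟨(fun _ => 1, fun _ => Classical.arbitrary β)⟩
  have h3 := hEI (Om r k β) β _ (fun x _ => WQ T x)
  have hc : (Fintype.card β : ℝ) ≠ 0 := by
    have : 0 < Fintype.card β := Fintype.card_pos
    positivity
  unfold rho
  rw [h1, h2, h3]
  unfold AA
  rw [sum_const, card_univ, nsmul_eq_mul]
  field_simp
  ring

end Pool.Agent.H85.SE4RS
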